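import Mathlib

set_option autoImplicit false

namespace Pool.Agent.Results.MP_3821a3_co.Unbounded

open MvPolynomial Finset

/-- The Alon-Tarsi number of a polynomial: the least value of (largest exponent) + 1 over the
monomials with nonzero coefficient whose degree is the total degree of the polynomial. -/
noncomputable def AT {V F : Type} [Fintype V] [Field F] (p : MvPolynomial V F) : ℕ :=
  sInf {t : ℕ | ∃ α ∈ p.support, (∑ i, α i) = p.totalDegree ∧ t = univ.sup (fun i => α i) + 1}

/-- Edge density of the hypergraph with vertex set V and edges e k: the largest value of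
|E(X)| / |X| over nonempty vertex sets X, where E(X) consists of the edges inside X. -/
noncomputable def ed {V E : Type} [Fintype E] [DecidableEq V] (e : E → Finset V) : ℝ :=
  sSup {r : ℝ | ∃ X : Finset V, X.Nonempty ∧
    r = ((univ.filter (fun k => e k ⊆ X)).card : ℝ) / (X.card : ℝ)}

/-- The hypergraph polynomial with coefficients a. -/
noncomputable def hpoly {V E F : Type} [Fintype E] [Field F] (e : E → Finset V) (a : E → V → F) :
    MvPolynomial V F :=
  ∏ k, ∑ i ∈ e k, C (a k i) * X i

section additive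
variable {R ι : Type} [CommRing R] [CharP R 2] [DecidableEq ι]

lemma add_prod (y : ι → R) (T : Finset ι) : ∀ A B : R,
    ∏ S ∈ T.powerset, (A + B + ∑ j ∈ S, y j) =
      ∏ S ∈ T.powerset, (A + ∑ j ∈ S, y j) + ∏ S ∈ T.powerset, (B + ∑ j ∈ S, y j) := by
  induction T using Finset.induction_on with
  | empty => intro A B; simp
  | insert t T ht ih =>
    intro A B
    have key : ∀ L : R, ∏ S ∈ (insert t T).powerset, (L + ∑ j ∈ S, y j) =
        (∏ S ∈ T.powerset, (L + ∑ j ∈ S, y j)) *
          ((∏ S ∈ T.powerset, (L + ∑ j ∈ S, y j)) + ∏ S ∈ T.powerset, (y t + ∑ j ∈ S, y j)) := by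
      intro L
      rw [Finset.prod_powerset_insert ht, ← ih L (y t)]
      congr 1
      refine Finset.prod_congr rfl (fun S hS => ?_)
      rw [Finset.sum_insert (fun h => ht (Finset.mem_powerset.1 hS h)), add_assoc]
    rw [key, key, key, ih A B]
    have h2 : (2 : R) = 0 := CharTwo.two_eq_zero
    linear_combination ((∏ S ∈ T.powerset, (A + ∑ j ∈ S, y j)) *
      ∏ S ∈ T.powerset, (B + ∑ j ∈ S, y j)) * h2

lemma sum_prod {κ : Type} [DecidableEq κ] (y : ι → R) (T : Finset ι) (x : κ → R) (I : Finset κ) :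
    ∏ S ∈ T.powerset, (∑ i ∈ I, x i + ∑ j ∈ S, y j) =
      ∑ i ∈ I, ∏ S ∈ T.powerset, (x i + ∑ j ∈ S, y j) := by
  induction I using Finset.induction_on with
  | empty =>
    simp only [Finset.sum_empty, zero_add]
    exact Finset.prod_eq_zero (Finset.empty_mem_powerset T) (by simp)
  | insert i I hi ih => rw [Finset.sum_insert hi, Finset.sum_insert hi, add_prod, ih]

end additive

/-- The edge indexed by S: all left vertices together with the right vertices in S. -/
def edge (k : ℕ) (S : Finset (Fin k)) : Finset (Fin (2 ^ k + 2) ⊕ Fin k) :=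
  (univ : Finset (Fin (2 ^ k + 2))).disjSum S

/-- Coefficient w at the left vertex 0 and 1 elsewhere. -/
def coef {F : Type} [Field F] (w : F) (k : ℕ) (_ : Finset (Fin k)) :
    Fin (2 ^ k + 2) ⊕ Fin k → F :=
  fun v => if v = Sum.inl 0 then w else 1

lemma coef_ne {F : Type} [Field F] {w : F} (hw : w ≠ 0) (k : ℕ) (S : Finset (Fin k))
    (v : Fin (2 ^ k + 2) ⊕ Fin k) : coef w k S v ≠ 0 := by
  unfold coef; split_ifs
  · exact hw
  · exact one_ne_zero

lemma ed_edge (k : ℕ) : ⌈ed (edge k)⌉ = 1 := by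
  have hle : ∀ r ∈ {r : ℝ | ∃ X : Finset (Fin (2 ^ k + 2) ⊕ Fin k), X.Nonempty ∧
      r = ((univ.filter (fun S => edge k S ⊆ X)).card : ℝ) / (X.card : ℝ)}, r ≤ 1 := by
    rintro r ⟨X, hX, rfl⟩
    have hpos : (0 : ℝ) < X.card := by exact_mod_cast hX.card_pos
    rw [div_le_one hpos]
    rcases (univ.filter (fun S => edge k S ⊆ X)).eq_empty_or_nonempty with h | ⟨S, hS⟩
    · rw [h]; simp
    · have h1 := Finset.card_le_card (Finset.mem_filter.1 hS).2
      have h2 := Finset.card_le_univ (univ.filter (fun S => edge k S ⊆ X))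
      simp only [edge, Finset.card_disjSum, Finset.card_univ, Fintype.card_fin,
        Fintype.card_finset] at h1 h2 ⊢
      exact_mod_cast (by omega)
  rw [Int.ceil_eq_iff]
  constructor
  · have hmem : ((univ.filter (fun S => edge k S ⊆ univ)).card : ℝ) /
        ((univ : Finset (Fin (2 ^ k + 2) ⊕ Fin k)).card : ℝ) ≤ ed (edge k) :=
      le_csSup ⟨1, hle⟩ ⟨univ, univ_nonempty, rfl⟩
    refine lt_of_lt_of_le ?_ hmem
    simp only [Finset.subset_univ, Finset.filter_true, Finset.card_univ]
    have h1 : (0 : ℝ) < Fintype.card (Finset (Fin k)) := by exact_mod_cast Fintype.card_pos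
    have h2 : (0 : ℝ) < Fintype.card (Fin (2 ^ k + 2) ⊕ Fin k) := by
      exact_mod_cast Fintype.card_pos
    have := div_pos h1 h2
    simpa using this
  · have : ed (edge k) ≤ 1 := Real.sSup_le hle zero_le_one
    simpa using this

lemma lin_ne {V F : Type} [Field F] [DecidableEq V] (s : Finset V) (a : V → F) (i : V) (hi : i ∈ s)
    (ha : a i ≠ 0) : (∑ j ∈ s, C (a j) * X j : MvPolynomial V F) ≠ 0 := by
  intro h
  have := congrArg (eval (fun j => if j = i then (1 : F) else 0)) h
  simp only [map_sum, map_mul, eval_C, eval_X, map_zero, mul_ite, mul_one, mul_zero,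
    Finset.sum_ite_eq', hi, if_true] at this
  exact ha this

lemma AT_big {F : Type} [Field F] [CharP F 2] {w : F} (hw : w ≠ 0) (k B : ℕ)
    (hk : (k + 1) * B < 2 ^ k) : B < AT (hpoly (edge k) (coef w k)) := by
  set p := hpoly (edge k) (coef w k) with hp
  have hne : p ≠ 0 := by
    rw [hp, hpoly]
    refine Finset.prod_ne_zero_iff.2 (fun S _ => ?_)
    exact lin_ne _ _ (Sum.inl 0) (by simp [edge]) (coef_ne hw _ _ _)
  have hhom : p.IsHomogeneous (2 ^ k) := by
    have := IsHomogeneous.prod (univ : Finset (Finset (Fin k)))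
      (fun S => (∑ i ∈ edge k S, C (coef w k S i) * X i : MvPolynomial _ F)) (fun _ => 1)
      (fun S _ => IsHomogeneous.sum _ _ 1 (fun i _ => (isHomogeneous_X F i).C_mul _))
    simpa [hp, hpoly] using this
  have hdeg : p.totalDegree = 2 ^ k := hhom.totalDegree hne
  have hexp : p = ∑ i : Fin (2 ^ k + 2), ∏ S ∈ (univ : Finset (Fin k)).powerset,
      ((C (coef w k ∅ (Sum.inl i)) * X (Sum.inl i) : MvPolynomial _ F) +
        ∑ j ∈ S, X (Sum.inr j)) := by
    rw [← sum_prod, hp, hpoly, Finset.powerset_univ]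
    refine Finset.prod_congr rfl (fun S _ => ?_)
    rw [edge, Finset.sum_disjSum]
    simp [coef]
  have hall : ∀ α ∈ p.support, (∑ i, α i) = p.totalDegree → B < univ.sup (fun i => α i) + 1 := by
    intro α hα hs
    rw [hexp] at hα
    obtain ⟨i, -, hi⟩ := Finset.mem_biUnion.1 (support_sum hα)
    have hz : ∀ i' : Fin (2 ^ k + 2), i' ≠ i → α (Sum.inl i') = 0 := by
      intro i' hi'
      refine mem_support_notMem_vars_zero hi (fun hv => ?_)
      obtain ⟨S, -, hS⟩ := Finset.mem_biUnion.1 (vars_prod _ hv)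
      rcases Finset.mem_union.1 (vars_add_subset _ _ hS) with h | h
      · rcases Finset.mem_union.1 (vars_mul _ _ h) with h | h
        · simp at h
        · simp only [vars_X, Finset.mem_singleton, Sum.inl.injEq] at h
          exact hi' h
      · obtain ⟨j, -, hj⟩ := Finset.mem_biUnion.1 (vars_sum_subset _ _ h)
        simp at hj
    by_contra hB
    have hle : ∀ v, α v ≤ B := fun v =>
      le_trans (Finset.le_sup (f := fun i => α i) (Finset.mem_univ v)) (by omega)
    rw [hdeg, Fintype.sum_sum_type, Finset.sum_eq_single i (fun j _ hj => hz j hj) (by simp)] at hs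
    have h1 : ∑ j : Fin k, α (Sum.inr j) ≤ k * B := by
      have := Finset.sum_le_card_nsmul (univ : Finset (Fin k)) (fun j => α (Sum.inr j)) B
        (fun j _ => hle _)
      simpa using this
    have h2 := hle (Sum.inl i)
    rw [Nat.add_mul] at hk
    omega
  obtain ⟨α, hα⟩ := (support_nonempty.2 hne)
  have hmem : (univ.sup (fun i => α i) + 1) ∈ {t : ℕ | ∃ α ∈ p.support,
      (∑ i, α i) = p.totalDegree ∧ t = univ.sup (fun i => α i) + 1} := by
    refine ⟨α, hα, ?_, rfl⟩
    rw [hdeg]
    by_contra h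
    refine (mem_support_iff.1 hα) (hhom.coeff_eq_zero ?_)
    rwa [Finsupp.degree_eq_sum]
  obtain ⟨β, hβ, hs, ht⟩ := Nat.sInf_mem ⟨_, hmem⟩
  rw [AT, ht]
  exact hall β hβ hs

lemma exists_k (B : ℕ) : ∃ k, (k + 1) * B < 2 ^ k := by
  refine ⟨2 * (B + 1), ?_⟩
  have h : B + 1 < 2 ^ (B + 1) := Nat.lt_two_pow_self
  have h' : 2 * (B + 1) ≤ 2 ^ (B + 1) := by
    have : B < 2 ^ B := Nat.lt_two_pow_self
    rw [pow_succ]; omega
  rw [two_mul (B + 1), pow_add]
  nlinarith

/-- Over the field with four elements, hypergraphs without repeated edges and with edge density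
in (0,1] have fully unbalanced hypergraph polynomials of arbitrarily large Alon-Tarsi number. -/
theorem result (B : ℕ) :
    ∃ (V E : Type) (_ : Fintype V) (_ : DecidableEq V) (_ : Fintype E)
      (e : E → Finset V) (a : E → V → GaloisField 2 2),
      Function.Injective e ∧ (∀ k, 2 ≤ (e k).card) ∧ (∀ k, ∀ i ∈ e k, a k i ≠ 0) ∧
      (∀ k, ∃ i ∈ e k, ∃ j ∈ e k, a k i ≠ a k j) ∧
      ⌈ed e⌉ = 1 ∧ B < AT (hpoly e a) := by
  classical
  obtain ⟨k, hk⟩ := exists_k B
  obtain ⟨w, hw0, hw1⟩ : ∃ w : GaloisField 2 2, w ≠ 0 ∧ w ≠ 1 := by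
    by_contra h
    push Not at h
    have hc := GaloisField.card 2 2 (by norm_num)
    have := Fintype.ofFinite (GaloisField 2 2)
    have hsub : (univ : Finset (GaloisField 2 2)) ⊆ {0, 1} := by
      intro x _
      by_cases hx : x = 0
      · simp [hx]
      · simp [h x hx]
    have h1 := Finset.card_le_card hsub
    have h2 : ({0, 1} : Finset (GaloisField 2 2)).card ≤ 2 := Finset.card_le_two
    rw [Finset.card_univ, ← Nat.card_eq_fintype_card, hc] at h1
    omega
  refine ⟨Fin (2 ^ k + 2) ⊕ Fin k, Finset (Fin k), inferInstance, inferInstance, inferInstance,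
    edge k, coef w k, ?_, ?_, ?_, ?_, ed_edge k, AT_big hw0 k B hk⟩
  · intro S T h
    ext j
    have := congrArg (fun s => Sum.inr j ∈ s) h
    simpa [edge] using this
  · intro S
    simp only [edge, Finset.card_disjSum, Finset.card_univ, Fintype.card_fin]
    omega
  · intro S i _
    exact coef_ne hw0 _ _ _
  · intro S
    refine ⟨Sum.inl 0, by simp [edge], Sum.inl 1, by simp [edge], ?_⟩
    simpa [coef] using hw1

end Pool.Agent.Results.MP_3821a3_co.Unbounded
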